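import Pool.Agent.Work.MP_223b32_tl.Defs
import Pool.Agent.Work.MP_223b32_tc.Interface

/-!
# All powers, all codimensions: interface

See `BLUEPRINT.md`. Each block is one Prop `Stmt_X`; its file ends with `theorem stmt_X : Stmt_X`
(with the used blocks as hypotheses).
-/

namespace Pool.Agent.Work.TL

open Finset Polynomial Pool.Agent.Work.MP_223b32_ag Pool.Agent.Work.MP_223b32_ag_56
  Pool.Agent.Work.TC

/-- The ring of algebraic integers. -/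
abbrev AA : Type := integralClosure ℤ ℂ

/-- An algebraic closure of the field with two elements. -/
abbrev Om : Type := AlgebraicClosure (ZMod 2)

/-! ### Part 1: automorphisms and arithmetic modulo `n` -/

/-- FA: a Frobenius automorphism at the place `ρ`. -/
def Stmt_FA : Prop :=
  ∀ ρ : AA →+* Om, ∃ σ : AA ≃+* AA, ∀ x, ρ (σ x) = ρ x ^ 2

/-- TAU: an automorphism which changes the sign of `√q`. -/
def Stmt_TAU : Prop :=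
  ∀ q : ℕ, ¬ IsSquare q → ∀ s : AA, s ^ 2 = q → ∃ τ : AA ≃+* AA, τ s = -s

/-- The order of `2` modulo `±1`. -/
def Ord (n : ℕ) : Prop :=
  ∀ k : ℕ, 0 < k → 2 * k < n - 1 → (2 : ZMod n) ^ k ≠ 1 ∧ (2 : ZMod n) ^ k ≠ -1

/-- The residue `2 ^ ((n - 1) / 2)`. -/
def eta (n : ℕ) : ℤ := if n % 8 = 7 then 1 else -1

/-- GENM: the possible residues of `n` modulo `8`. -/
def Stmt_GENM : Prop :=
  ∀ n : ℕ, n.Prime → n ≠ 2 → Gen n →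
    Ord n ∧ (n % 8 = 3 ∨ n % 8 = 5 ∨ n % 8 = 7) ∧ (2 : ZMod n) ^ (n / 2) = (eta n : ZMod n)

/-! ### Part 2: the eigenvalues along the orbit of `2` -/

/-- The Frobenius eigenvalues of one curve: `al i` reduces to `ζ ^ (2 ^ i)`, and `be i = q / al i`;
`g = (n - 1) / 2`, `η = 2 ^ g` modulo `n`. -/
structure Orb (n g : ℕ) (η : ℤ) (q : ℕ) (ρ : AA →+* Om) (σ : AA ≃+* AA) (r : ℕ → ℕ) (ζ : Om)
    (al be w v : ℕ → AA) : Prop where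
  prime : n.Prime
  two_g : n = 2 * g + 1
  odd_q : Odd q
  ord : Ord n
  two : (2 : ZMod n) ^ g = (η : ZMod n)
  zeta : ζ ^ n = 1
  zeta_ne : ζ ≠ 1
  frob : ∀ x, ρ (σ x) = ρ x ^ 2
  shift : ∀ i, al (i + 1) = σ (al i)
  red : ∀ i, ρ (al i) = ζ ^ 2 ^ i
  pow_al : ∀ i, al i ^ n = 1 + 2 * w i
  red_w : ∀ i, ρ (w i) = ZZ n r (ζ ^ 2 ^ i)
  mul : ∀ i, al i * be i = q
  pow_be : ∀ i, be i ^ n = 1 + 2 * v i
  red_v : ∀ i, ρ (v i) = ZZ n r ((ζ ^ 2 ^ i)⁻¹)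
  per : (η = 1 ∧ ∀ i, al (i + g) = al i) ∨ (η = -1 ∧ ∀ i, al (i + g) = be i)
  inj : ∀ i < g, ∀ j < g, (al i = al j → i = j) ∧ al i ≠ be j
  aut : ∀ τ : AA ≃+* AA, ∀ i, ∃ j < g, τ (al i) = al j ∨ τ (al i) = be j
  sym : ∀ k, 1 ≤ k → k ≤ g → r (n - k) ≡ r k + eps q [MOD 2]

/-- DATA (from FROB, B4, FE, RED, DSYM): the eigenvalues of one curve. -/
def Stmt_DATA : Prop :=
  ∀ (F K : Type) [Field F] [Fintype F] [Field K] [Fintype K] [DecidableEq K] [Algebra F K],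
    ringChar F ≠ 2 → ∀ n : ℕ, n.Prime → n ≠ 2 → Module.finrank F K = n → ∀ ρ : AA →+* Om,
    ∀ a : K, a ∉ (algebraMap F K).range →
    ∃ (c : ℂ) (r : ℕ → ℕ) (β' w : Fin (n - 1) → AA), c ^ 2 = 1 ∧
      IsFrob F (minpoly F a) (fun i => c * (β' i : ℂ)) ∧
      (∀ i, β' i ^ n = 1 + 2 * w i) ∧ (∀ i, ρ (w i) = ZZ n r (ρ (β' i))) ∧
      (∀ i, ρ (β' i) ^ n = 1 ∧ ρ (β' i) ≠ 1) ∧ (Function.Injective fun i => ρ (β' i)) ∧
      (∀ i, ∃ j, β' i * β' j = (Fintype.card F : AA)) ∧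
      (∀ τ : AA ≃+* AA, ∀ i, ∃ j, τ (β' i) = β' j) ∧
      (∀ k, 1 ≤ k → k < n → r k = dl F a k) ∧
      ∀ k, 1 ≤ k → k < n → r (n - k) ≡ r k + eps (Fintype.card F) [MOD 2]

/-- ORBX: the arrangement of the eigenvalues along the orbit. -/
def Stmt_ORBX : Prop :=
  ∀ (ρ : AA →+* Om) (σ : AA ≃+* AA), (∀ x, ρ (σ x) = ρ x ^ 2) →
    ∀ n q : ℕ, n.Prime → n ≠ 2 → Odd q → Ord n → ∀ η : ℤ, (η = 1 ∨ η = -1) →
    (2 : ZMod n) ^ (n / 2) = (η : ZMod n) →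
    ∀ (r : ℕ → ℕ) (β' w' : Fin (n - 1) → AA),
      (∀ i, β' i ^ n = 1 + 2 * w' i) → (∀ i, ρ (w' i) = ZZ n r (ρ (β' i))) →
      (∀ i, ρ (β' i) ^ n = 1 ∧ ρ (β' i) ≠ 1) → (Function.Injective fun i => ρ (β' i)) →
      (∀ i, ∃ j, β' i * β' j = q) → (∀ τ : AA ≃+* AA, ∀ i, ∃ j, τ (β' i) = β' j) →
      (∀ k, 1 ≤ k → k < n → r (n - k) ≡ r k + eps q [MOD 2]) →
      ∀ ζ : Om, ζ ^ n = 1 → ζ ≠ 1 →
        ∃ al be w v : ℕ → AA, Orb n (n / 2) η q ρ σ r ζ al be w v ∧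
          ∀ j, ∃ i < n / 2, β' j = al i ∨ β' j = be i

/-! ### Part 3: the ideal of relations -/

/-- `∏ (al_i ^ 2 / q) ^ (p_i)` for `P = ∑ p_i X ^ i`. -/
noncomputable def Th (q : ℕ) (al : ℕ → AA) (P : ℤ[X]) : ℂ :=
  ∏ i ∈ P.support, ((al i : ℂ) ^ 2 / q) ^ P.coeff i

/-- This is a root of unity. -/
def Rel (q : ℕ) (al : ℕ → AA) (P : ℤ[X]) : Prop := ∃ M : ℕ, 0 < M ∧ Th q al P ^ M = 1

/-- `I` is the ideal of all relations. -/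
def IsRel (q : ℕ) (al : ℕ → AA) (I : Ideal ℤ[X]) : Prop := ∀ P, P ∈ I ↔ Rel q al P

/-- ID: the relations form a saturated ideal which contains `X ^ g - η`. -/
def Stmt_ID : Prop :=
  ∀ (n g : ℕ) (η : ℤ) (q : ℕ) (ρ : AA →+* Om) (σ : AA ≃+* AA) (r : ℕ → ℕ) (ζ : Om)
    (al be w v : ℕ → AA), Orb n g η q ρ σ r ζ al be w v →
    ∃ I : Ideal ℤ[X], IsRel q al I ∧ (∀ m : ℤ, m ≠ 0 → ∀ P, C m * P ∈ I → P ∈ I) ∧
      X ^ g - C η ∈ I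

/-- DIV: a relation not divisible by the cyclotomic polynomial gives the cofactor. -/
def Stmt_DIV : Prop :=
  ∀ I : Ideal ℤ[X], (∀ m : ℤ, m ≠ 0 → ∀ P, C m * P ∈ I → P ∈ I) → ∀ (P Ψ : ℤ[X]) (d : ℕ),
    0 < d → cyclotomic d ℤ * Ψ ∈ I → P ∈ I → ¬ cyclotomic d ℤ ∣ P → Ψ ∈ I

/-- The `d` for which the `d`-th cyclotomic polynomial divides `X ^ g - η`, for `η = ±1`. -/
def DD (g : ℕ) (η : ℤ) : Finset ℕ :=
  if η = 1 then g.divisors else (2 * g).divisors.filter fun d => ¬ d ∣ g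

/-- The cofactor. -/
noncomputable def Psi (g : ℕ) (η : ℤ) (d : ℕ) : ℤ[X] := (X ^ g - C η) /ₘ cyclotomic d ℤ

/-- CYC: the factorisation of `X ^ g - η`. -/
def Stmt_CYC : Prop :=
  ∀ (g : ℕ) (η : ℤ), 1 ≤ g → (η = 1 ∨ η = -1) →
    (∀ d ∈ DD g η, cyclotomic d ℤ * Psi g η d = X ^ g - C η ∧ (Psi g η d).Monic ∧
      (Psi g η d).natDegree + d.totient = g) ∧
    (∀ P : ℤ[X], (∀ d ∈ DD g η, cyclotomic d ℤ ∣ P) → (X ^ g - C η) ∣ P) ∧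
    ∀ d₀ ∈ DD g η, ∀ P : ℤ[X], (∀ d ∈ DD g η, d ≠ d₀ → cyclotomic d ℤ ∣ P) → Psi g η d₀ ∣ P

/-- FO (from RU): a relation modulo `8`. -/
def Stmt_FO : Prop :=
  ∀ (n g : ℕ) (η : ℤ) (q : ℕ) (ρ : AA →+* Om) (σ : AA ≃+* AA) (r : ℕ → ℕ) (ζ : Om)
    (al be w v : ℕ → AA), Orb n g η q ρ σ r ζ al be w v → ∀ P : ℤ[X], P.natDegree < g →
    Rel q al P →
      ∑ i ∈ (range g).filter (fun i => Odd (P.coeff i)), (ρ (w i) + ρ (w i) ^ 2) =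
        ((((range g).filter (fun i => Odd (P.coeff i))).card * kap (q ^ n) : ℕ) : Om)

/-- TR: identities for traces. -/
def Stmt_TR : Prop :=
  ∀ (n g : ℕ) (η : ℤ) (q : ℕ) (ρ : AA →+* Om) (σ : AA ≃+* AA) (r : ℕ → ℕ) (ζ : Om)
    (al be w v : ℕ → AA), Orb n g η q ρ σ r ζ al be w v →
    (η = 1 → ∑ i ∈ range g, (ρ (w i) + ρ (w i) ^ 2) = 0) ∧
    (η = -1 → ∑ i ∈ range g, (ρ (w i) + ρ (w i) ^ 2) = (eps q : Om)) ∧
    ∀ g' : ℕ, g = 2 * g' → η = -1 → ∀ x : Om,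
      x = ∑ k ∈ range g', (ρ (w (2 * k)) + ρ (w (2 * k)) ^ 2) → x ^ 2 + x = (eps q : Om)

/-- The last cofactor: `∑ η ^ k X ^ (m k)`, `k < g'`. -/
noncomputable def Psi0 (g' m : ℕ) (η : ℤ) : ℤ[X] := ∑ k ∈ range g', C (η ^ k) * X ^ (m * k)

/-- DESC (from TAU, RU): descent, for `q` not a square and `q = 1` modulo `8`. -/
def Stmt_DESC : Prop :=
  ∀ (n g : ℕ) (η : ℤ) (q : ℕ) (ρ : AA →+* Om) (σ : AA ≃+* AA) (r : ℕ → ℕ) (ζ : Om)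
    (al be w v : ℕ → AA), Orb n g η q ρ σ r ζ al be w v → q % 8 = 1 → ¬ IsSquare q →
    ∀ m g' : ℕ, g = m * g' → Odd g' → (m = 1 ∨ (m = 2 ∧ η = -1)) → ∀ I : Ideal ℤ[X],
      IsRel q al I → (∀ P ∈ I, Psi0 g' m η ∣ P) → Psi0 g' m η ∉ I

/-- The exceptional index. -/
def d0 (n : ℕ) : ℕ := if n % 8 = 7 then 1 else if n % 8 = 3 then 2 else 4

/-- LAST (from FO, TR, DESC, CYC): the last cofactor is no relation. -/
def Stmt_LAST : Prop :=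
  ∀ (n g q : ℕ) (ρ : AA →+* Om) (σ : AA ≃+* AA) (r : ℕ → ℕ) (ζ : Om)
    (al be w v : ℕ → AA), Orb n g (eta n) q ρ σ r ζ al be w v →
    (n % 8 = 3 ∨ n % 8 = 5 ∨ n % 8 = 7) → n % 8 ≠ q % 8 → ¬ IsSquare q →
    ∀ I : Ideal ℤ[X], IsRel q al I →
      d0 n ∈ DD g (eta n) ∧ ((∀ P ∈ I, Psi g (eta n) (d0 n) ∣ P) → Psi g (eta n) (d0 n) ∉ I)

/-- BAL: without relations, everything is balanced. -/
def Stmt_BAL : Prop :=
  ∀ (n g : ℕ) (η : ℤ) (q : ℕ) (ρ : AA →+* Om) (σ : AA ≃+* AA) (r : ℕ → ℕ) (ζ : Om)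
    (al be w v : ℕ → AA), Orb n g η q ρ σ r ζ al be w v →
    (∀ P, Rel q al P → (X ^ g - C η) ∣ P) → ∀ s : Multiset ℂ,
      (∀ z ∈ s, ∃ i < g, z = al i ∨ z = be i) → ∀ M : ℕ, 0 < M →
      s.prod ^ (2 * M) = (q : ℂ) ^ (M * s.card) →
      ∀ i < g, s.count (al i : ℂ) = s.count (be i : ℂ)

/-- ALG (from ID, DIV, CYC, LAST, BAL). -/
def Stmt_ALG : Prop :=
  ∀ (n g q : ℕ) (ρ : AA →+* Om) (σ : AA ≃+* AA) (r : ℕ → ℕ) (ζ : Om)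
    (al be w v : ℕ → AA), Orb n g (eta n) q ρ σ r ζ al be w v →
    (n % 8 = 3 ∨ n % 8 = 5 ∨ n % 8 = 7) → n % 8 ≠ q % 8 → ¬ IsSquare q →
    (∃ d ∈ DD g (eta n), d ≠ d0 n ∧ Rel q al (Psi g (eta n) d)) ∨
    ∀ s : Multiset ℂ, (∀ z ∈ s, ∃ i < g, z = al i ∨ z = be i) → ∀ M : ℕ, 0 < M →
      s.prod ^ (2 * M) = (q : ℂ) ^ (M * s.card) →
      ∀ i < g, s.count (al i : ℂ) = s.count (be i : ℂ)

/-! ### Part 4: counting -/

/-- The roots of unity of the linear condition. -/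
def JJ {G : Type} [Field G] [DecidableEq G] (g : ℕ) (P : ℤ[X]) (ξ : G) : Finset G :=
  ((range g).filter fun i => Odd (P.coeff i)).image fun i => ξ ^ 2 ^ i

/-- LINL: the rank of the linear condition. -/
def Stmt_LINL : Prop :=
  ∀ (G : Type) [Field G] [Fintype G] [DecidableEq G] [Algebra (ZMod 2) G] (n m : ℕ), n.Prime →
    n ≠ 2 → Ord n → m = orderOf (2 : ZMod n) → Fintype.card G = 2 ^ m → ∀ ξ : G, ξ ^ n = 1 →
    ξ ≠ 1 → ∀ (P : ℤ[X]) (D : ℕ), P.Monic → P.natDegree + D = n / 2 → 1 ≤ D →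
      Adm n (JJ (n / 2) P ξ) ∧
      Nat.card {y : G // ∀ k ∈ Icc 1 (n / 2),
        Algebra.trace (ZMod 2) G (y * cc n (JJ (n / 2) P ξ) k) = 0} * 2 ^ D ≤ 2 ^ (m + 1)

/-- The elements without the property. -/
def Bad (F : Type) {K : Type} [Field F] [Fintype F] [Field K] [Fintype K] [Algebra F K]
    (N : ℕ) (a : K) : Prop := ¬ TateAll F N (minpoly F a)

/-- ONEL (from FA, DATA, ORBX, ALG, FO, STAR, FLA): a bad element satisfies one of the linear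
conditions. -/
def Stmt_ONEL : Prop :=
  ∀ (F K : Type) [Field F] [Fintype F] [Field K] [Fintype K] [DecidableEq K] [Algebra F K],
    ringChar F ≠ 2 → ¬ IsSquare (Fintype.card F) → ∀ n : ℕ, n.Prime → n ≠ 2 →
    Module.finrank F K = n → Ord n → (n % 8 = 3 ∨ n % 8 = 5 ∨ n % 8 = 7) →
    (2 : ZMod n) ^ (n / 2) = (eta n : ZMod n) → n % 8 ≠ Fintype.card F % 8 →
    ∀ (G : Type) [Field G] [Fintype G] [DecidableEq G] [Algebra (ZMod 2) G],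
      ∀ ξ : G, ξ ^ n = 1 → ξ ≠ 1 → ∃ c' : ℕ → G, ∀ a : K, a ∉ (algebraMap F K).range →
        Bad F (n - 1) a → ∃ d ∈ DD (n / 2) (eta n), d ≠ d0 n ∧
          ∑ k ∈ Icc 1 (n / 2), (dl F a k : G) * cc n (JJ (n / 2) (Psi (n / 2) (eta n) d) ξ) k =
            c' d

/-- SUMD: the sum over the divisors. -/
def Stmt_SUMD : Prop :=
  ∀ n : ℕ, (n % 8 = 3 ∨ n % 8 = 5 ∨ n % 8 = 7) → 3 ≤ n →
    ∑ d ∈ (DD (n / 2) (eta n)).erase (d0 n), (2 : ℝ) ^ (-(d.totient : ℝ) / 2) ≤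
      ∑ e ∈ (n / 2).divisors.filter (fun e => Odd e ∧ 1 < e), (2 : ℝ) ^ (-(e.totient : ℝ) / 2)

/-- SUML (from ONEL, LINL, COUNT, CYC, SUMD): the union bound. -/
def Stmt_SUML : Prop :=
  ∀ (F K : Type) [Field F] [Fintype F] [Field K] [Fintype K] [Algebra F K],
    ringChar F ≠ 2 → ¬ IsSquare (Fintype.card F) → ∀ n : ℕ, n.Prime → n ≠ 2 →
    Module.finrank F K = n → Gen n → n % 8 ≠ Fintype.card F % 8 →
      (Nat.card {a : K // a ∉ (algebraMap F K).range ∧ Bad F (n - 1) a} : ℝ) ≤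
        9 * (∑ e ∈ (n / 2).divisors.filter (fun e => Odd e ∧ 1 < e),
          (2 : ℝ) ^ (-(e.totient : ℝ) / 2)) *
          (Nat.card {a : K // a ∉ (algebraMap F K).range} : ℝ)

end Pool.Agent.Work.TL
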