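import Pool.Agent.Work.MP_223b32_tl.Defs2
import Pool.Agent.Work.MP_223b32_tl.Interface

/-!
# All finite fields: interface
-/

namespace Pool.Agent.Work.TL

open Finset Polynomial Pool.Agent.Work.MP_223b32_ag Pool.Agent.Work.MP_223b32_ag_56
  Pool.Agent.Work.TC

/-- BALT: if all relations are divisible by the last cofactor, the short ones are balanced. -/
def Stmt_BALT : Prop :=
  ∀ (n g : ℕ) (η : ℤ) (q : ℕ) (ρ : AA →+* Om) (σ : AA ≃+* AA) (r : ℕ → ℕ) (ζ : Om)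
    (al be w v : ℕ → AA), Orb n g η q ρ σ r ζ al be w v → ∀ m g' : ℕ, g = m * g' → Odd g' →
    (m = 1 ∨ (m = 2 ∧ η = -1)) → (∀ P, Rel q al P → Psi0 g' m η ∣ P) → ∀ s : Multiset ℂ,
      (∀ z ∈ s, ∃ i < g, z = al i ∨ z = be i) → ∀ M : ℕ, 0 < M →
      s.prod ^ (2 * M) = (q : ℂ) ^ (M * s.card) → s.card < g' →
      ∀ i < g, s.count (al i : ℂ) = s.count (be i : ℂ)

/-- PSI0: the two descriptions of the last cofactor. -/
def Stmt_PSI0 : Prop :=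
  ∀ n : ℕ, (n % 8 = 3 ∨ n % 8 = 5 ∨ n % 8 = 7) → d0 n ∈ DD (n / 2) (eta n) ∧
    ∃ m : ℕ, n / 2 = m * oddPart n ∧ Odd (oddPart n) ∧ (m = 1 ∨ (m = 2 ∧ eta n = -1)) ∧
      Psi (n / 2) (eta n) (d0 n) = Psi0 (oddPart n) m (eta n)

/-- ALGT (from ID, DIV, CYC, LAST, BAL, BALT, PSI0). -/
def Stmt_ALGT : Prop :=
  ∀ (n g q : ℕ) (ρ : AA →+* Om) (σ : AA ≃+* AA) (r : ℕ → ℕ) (ζ : Om)
    (al be w v : ℕ → AA), Orb n g (eta n) q ρ σ r ζ al be w v →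
    (n % 8 = 3 ∨ n % 8 = 5 ∨ n % 8 = 7) →
    (∃ d ∈ DD g (eta n), d ≠ d0 n ∧ Rel q al (Psi g (eta n) d)) ∨
    ∀ s : Multiset ℂ, (∀ z ∈ s, ∃ i < g, z = al i ∨ z = be i) → ∀ M : ℕ, 0 < M →
      s.prod ^ (2 * M) = (q : ℂ) ^ (M * s.card) →
      (s.card < oddPart n ∨ (¬ IsSquare q ∧ n % 8 ≠ q % 8)) →
      ∀ i < g, s.count (al i : ℂ) = s.count (be i : ℂ)

/-- The elements without the property. -/
def BadT (F : Type) {K : Type} [Field F] [Fintype F] [Field K] [Fintype K] [Algebra F K]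
    (n : ℕ) (a : K) : Prop := ¬ TateIn F n (minpoly F a)

/-- ONET (copy of ONEL). -/
def Stmt_ONET : Prop :=
  ∀ (F K : Type) [Field F] [Fintype F] [Field K] [Fintype K] [DecidableEq K] [Algebra F K],
    ringChar F ≠ 2 → ∀ n : ℕ, n.Prime → n ≠ 2 →
    Module.finrank F K = n → Ord n → (n % 8 = 3 ∨ n % 8 = 5 ∨ n % 8 = 7) →
    (2 : ZMod n) ^ (n / 2) = (eta n : ZMod n) →
    ∀ (G : Type) [Field G] [Fintype G] [DecidableEq G] [Algebra (ZMod 2) G],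
      ∀ ξ : G, ξ ^ n = 1 → ξ ≠ 1 → ∃ c' : ℕ → G, ∀ a : K, a ∉ (algebraMap F K).range →
        BadT F n a → ∃ d ∈ DD (n / 2) (eta n), d ≠ d0 n ∧
          ∑ k ∈ Icc 1 (n / 2), (dl F a k : G) * cc n (JJ (n / 2) (Psi (n / 2) (eta n) d) ξ) k =
            c' d

/-- SUMT (copy of SUML): the union bound. -/
def Stmt_SUMT : Prop :=
  ∀ (F K : Type) [Field F] [Fintype F] [Field K] [Fintype K] [Algebra F K],
    ringChar F ≠ 2 → ∀ n : ℕ, n.Prime → n ≠ 2 → Module.finrank F K = n → Gen n →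
      (Nat.card {a : K // a ∉ (algebraMap F K).range ∧ BadT F n a} : ℝ) ≤
        9 * (∑ e ∈ (n / 2).divisors.filter (fun e => Odd e ∧ 1 < e),
          (2 : ℝ) ^ (-(e.totient : ℝ) / 2)) *
          (Nat.card {a : K // a ∉ (algebraMap F K).range} : ℝ)

end Pool.Agent.Work.TL
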