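import Pool.Agent.Work.MP_223b32_tc.Defs

/-!
# All powers, all codimensions: definitions

`F` is a finite field of odd characteristic with `q` elements, `q` not a square, `n = 2 g + 1` a
prime such that `2` and `-1` generate the group of units modulo `n`, `f` a monic irreducible
polynomial of degree `n` over `F`, and `C` the smooth projective curve `y ^ 2 = f(x)` of genus `g`.
-/

namespace Pool.Agent.Work.TL

open Finset Polynomial Pool.Agent.Work.MP_223b32_ag Pool.Agent.Work.MP_223b32_ag_56
  Pool.Agent.Work.TC

/-- The analytic Tate property in ALL codimensions for all powers of the Jacobian of the curve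
`y ^ 2 = f(x)` over all finite extensions of `F` (also after adding a supersingular factor). `V` is
the `H¹`, `Φ` its (semisimple) Frobenius endomorphism, with eigenvalues those of the curve and
those of the supersingular factor, `n` the degree of the extension of `F`, `j` the codimension. -/
def TateAll (F : Type) [Field F] [Fintype F] (N : ℕ) (f : F[X]) : Prop :=
  ∃ α : Fin N → ℂ, IsFrob F f α ∧
    ∀ (V : Type) [AddCommGroup V] [Module ℂ V] [Module.Finite ℂ V] (Φ : Module.End ℂ V),
      Φ.IsSemisimple → ∀ n : ℕ, 0 < n →
      (∀ μ, Φ.HasEigenvalue μ → (∃ i, μ = α i) ∨ μ ^ (2 * n) = (Fintype.card F : ℂ) ^ n) →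
      ∀ j : ℕ, Holds (Φ ^ n) ((Fintype.card F : ℝ) ^ n) j

/-- The monic irreducible polynomials of degree `n` without this property. -/
def exceptional (F : Type) [Field F] [Fintype F] (n : ℕ) : Set F[X] :=
  {f | f ∈ irr F n ∧ ¬ TateAll F (n - 1) f}

/-- `2` and `-1` generate the group of units modulo `n`. -/
def Gen (n : ℕ) : Prop := ∀ x : ZMod n, x ≠ 0 → ∃ k : ℕ, x = 2 ^ k ∨ x = -2 ^ k

end Pool.Agent.Work.TL
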