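import Pool.Agent.Work.MP_223b32_tl.Defs

/-!
# All finite fields: definitions

`F` is a finite field of odd characteristic with `q` elements, `n = 2 g + 1` a prime such that `2` and
`-1` generate the group of units modulo `n`, `f` a monic irreducible polynomial of degree `n` over
`F`, and `C` the smooth projective curve `y ^ 2 = f(x)` of genus `g`.
-/

namespace Pool.Agent.Work.TL

open Finset Polynomial Pool.Agent.Work.MP_223b32_ag Pool.Agent.Work.MP_223b32_ag_56
  Pool.Agent.Work.TC

/-- The odd part of the genus `g = (n - 1) / 2`, for `n = 3, 5, 7` modulo `8`. -/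
def oddPart (n : ℕ) : ℕ := if n % 8 = 5 then n / 4 else n / 2

/-- The codimensions `j` of the theorem: all `j` if `q` is not a square and `q ≠ n` modulo `8`, and
all `j < g' / 2`, `g'` the odd part of the genus, if `q` is a square or `q = n` modulo `8`. -/
def Allowed (q n j : ℕ) : Prop := 2 * j < oddPart n ∨ (¬ IsSquare q ∧ n % 8 ≠ q % 8)

/-- The analytic Tate property in these codimensions for all powers of the Jacobian of the curve
`y ^ 2 = f(x)` over all finite extensions of `F` (also after adding a supersingular factor). `V` is
the `H¹`, `Φ` its (semisimple) Frobenius endomorphism, with eigenvalues those of the curve and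
those of the supersingular factor, `k` the degree of the extension of `F`, `j` the codimension. -/
def TateIn (F : Type) [Field F] [Fintype F] (n : ℕ) (f : F[X]) : Prop :=
  ∃ α : Fin (n - 1) → ℂ, IsFrob F f α ∧
    ∀ (V : Type) [AddCommGroup V] [Module ℂ V] [Module.Finite ℂ V] (Φ : Module.End ℂ V),
      Φ.IsSemisimple → ∀ k : ℕ, 0 < k →
      (∀ μ, Φ.HasEigenvalue μ → (∃ i, μ = α i) ∨ μ ^ (2 * k) = (Fintype.card F : ℂ) ^ k) →
      ∀ j : ℕ, Allowed (Fintype.card F) n j → Holds (Φ ^ k) ((Fintype.card F : ℝ) ^ k) j

/-- The monic irreducible polynomials of degree `n` without this property. -/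
def exceptions (F : Type) [Field F] [Fintype F] (n : ℕ) : Set F[X] :=
  {f | f ∈ irr F n ∧ ¬ TateIn F n f}

end Pool.Agent.Work.TL
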